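import Mathlib
import Pool.Agent.Y248.FC.Stm
import Pool.Agent.Y515.FB.L2p
set_option autoImplicit false

/-! # Project FC: the case `1 < p < 2` on balls (GS) -/

namespace Pool.Agent.Y737.FC

open MeasureTheory Set Metric Complex Filter
open scoped ENNReal RealInnerProductSpace Topology FourierTransform
open Pool.Agent.H789R2.FR (E sg T)
open Pool.Agent.H438R2.RZ (Bump)
open Pool.Agent.Y248.BA (mu Kr Tp gh gh_cont mu_bdd mu_far mu_cont mu_int mu_supp Tp_eq four_eq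
  four_bdd gh_planch ball_vol loc_norm int_of_loc memLp_two integrable_ball)
open Pool.Agent.Y248.FB
open Pool.Agent.Y248.FC
open Pool.Agent.Y515.FB (Ff Ff_eq Ff_meas Ff_bdd pair mu_neg absorb)

theorem gh_eq {n : ℕ} (g : E n → ℂ) (ξ : E n) :
    gh g ξ = ∫ x, g x * cexp (((2 * Real.pi * ⟪x, ξ⟫ : ℝ) : ℂ) * I) := by
  unfold gh
  rw [four_eq]
  congr 1; funext x
  rw [inner_neg_right, mul_comm]
  have : ((-2 * Real.pi * -⟪x, ξ⟫ : ℝ) : ℂ) = ((2 * Real.pi * ⟪x, ξ⟫ : ℝ) : ℂ) := by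
    push_cast; ring
  rw [this]

/-- multiple of the Lebesgue measure -/
noncomputable def vV (n : ℕ) (c : ℝ) : Measure (E n) := ENNReal.ofReal c • volume

theorem Fm_v {n : ℕ} {c : ℝ} (hc : 0 ≤ c) (g : E n → ℂ) (ξ : E n) :
    Fm g (vV n c) ξ = (c : ℂ) * gh g ξ := by
  unfold Fm vV
  rw [integral_smul_measure, gh_eq, ENNReal.toReal_ofReal hc, Complex.real_smul]

theorem Hd_v {n : ℕ} (ψ : ℝ → ℝ) (A : ℝ) (μ : Measure (E n)) (g : E n → ℂ) (ξ : E n) :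
    Hd ψ A (fun _ => 1) g μ ξ = mu ψ A 1 ξ * Fm g μ ξ := by
  unfold Hd Fm
  rw [← integral_const_mul]
  congr 1; funext x; ring

theorem Dim_v {n : ℕ} {V : ℝ} (hV : 0 < V) (hVb : ∀ (u : E n) (r : ℝ), 0 ≤ r →
    (volume : Measure (E n)) (closedBall u r) = ENNReal.ofReal (V * r ^ n)) :
    Dim (n : ℝ) (vV n (1 / V)) := by
  intro x r hr
  unfold vV
  rw [Measure.smul_apply, hVb x r (by linarith), smul_eq_mul, ← ENNReal.ofReal_mul (by positivity)]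
  refine ENNReal.ofReal_le_ofReal (le_of_eq ?_)
  rw [Real.rpow_natCast]
  field_simp

theorem BB_int {n : ℕ} {g : E n → ℂ} (hg : BB g) : Integrable g :=
  integrable_ball hg.1 hg.2.1 hg.2.2.choose_spec

theorem BB_two {n : ℕ} {g : E n → ℂ} (hg : BB g) : MemLp g 2 := by
  obtain ⟨M, hM⟩ := hg.2.1
  refine memLp_two hg.1 ?_
  have h1 : ∀ x, ‖g x‖ₑ ^ (2 : ℝ) ≤ ENNReal.ofReal M * ‖g x‖ₑ := by
    intro x
    have : ‖g x‖ₑ ^ (2 : ℝ) = ‖g x‖ₑ * ‖g x‖ₑ := by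
      rw [show (2 : ℝ) = ((2 : ℕ) : ℝ) by norm_num, ENNReal.rpow_natCast, sq]
    rw [this]
    gcongr
    rw [← ofReal_norm]
    exact ENNReal.ofReal_le_ofReal (hM x)
  have h2 : ∫⁻ x, ‖g x‖ₑ ^ (2 : ℝ) ≤ ENNReal.ofReal M * ∫⁻ x, ‖g x‖ₑ := by
    rw [← lintegral_const_mul _ hg.1.enorm]
    exact lintegral_mono h1
  exact (h2.trans_lt (ENNReal.mul_lt_top ENNReal.ofReal_lt_top (BB_int hg).2)).ne

theorem lint_v {n : ℕ} {c : ℝ} (h : E n → ℝ≥0∞) :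
    ∫⁻ x, h x ∂(vV n c) = ENNReal.ofReal c * ∫⁻ x, h x := by
  unfold vV
  rw [lintegral_smul_measure, smul_eq_mul]

theorem en_real {c : ℝ} (hc : 0 ≤ c) : ‖(c : ℂ)‖ₑ = ENNReal.ofReal c := by
  rw [← ofReal_norm, Complex.norm_real, Real.norm_of_nonneg hc]

theorem Gain_v {n : ℕ} {V : ℝ} (hV : 0 < V) : Gain 0 (1 / V) (vV n (1 / V)) := by
  intro ρ hρ g hg
  have hc : 0 ≤ 1 / V := by positivity
  refine (setLIntegral_le_lintegral _ _).trans ?_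
  simp only [Fm_v hc, enorm_mul, ENNReal.mul_rpow_of_nonneg _ _ (show (0 : ℝ) ≤ 2 by norm_num)]
  rw [lintegral_const_mul _ ((gh_cont (BB_int hg)).measurable.enorm.pow_const _),
    gh_planch (BB_int hg) (BB_two hg), lint_v, en_real hc, neg_zero, Real.rpow_zero, mul_one,
    ← mul_assoc]
  gcongr
  rw [show (2 : ℝ) = ((2 : ℕ) : ℝ) by norm_num, ENNReal.rpow_natCast, sq]

theorem st1 (n : ℕ) (h : S_GE n) {ψ : ℝ → ℝ} (hψ : Bump ψ) {p ε : ℝ} (hp1 : 1 < p) (hp2 : p < 2)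
    (hε : 0 < ε) : ∃ C : ℝ, 0 < C ∧ ∀ A : ℝ, 4 ≤ A → ∀ g : E n → ℂ, BB g →
      ∫⁻ ξ, ‖mu ψ A 1 ξ * gh g ξ‖ₑ ^ (2 : ℝ) ≤
        ENNReal.ofReal (C * A ^ (-th n 0 (p / (p - 1)) + ε)) * (∫⁻ x, ‖g x‖ₑ ^ p) ^ (2 / p) := by
  obtain ⟨V, hV, hVb⟩ := ball_vol n
  have hp0 : 0 < p - 1 := by linarith
  have hp' : 2 ≤ p / (p - 1) := by rw [le_div_iff₀ hp0]; linarith
  have hc : 0 ≤ 1 / V := by positivity
  obtain ⟨C, hC, hE⟩ := h ψ hψ 0 (1 / V) (p / (p - 1)) ε le_rfl zero_le_one hc hp' hε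
  refine ⟨V ^ 2 * (C * (1 / V) ^ (2 / p)), by positivity, fun A hA g hg => ?_⟩
  have hA0 : 0 < A := by linarith
  have h1 := hE (vV n (1 / V)) (Dim_v hV hVb) (Gain_v hV) A hA g hg
  have e1 : p / (p - 1) / (p / (p - 1) - 1) = p := by
    have : p / (p - 1) - 1 = 1 / (p - 1) := by field_simp; ring
    rw [this]; field_simp
  have e2 : 2 * (p / (p - 1) - 1) / (p / (p - 1)) = 2 / p := by
    have : p / (p - 1) - 1 = 1 / (p - 1) := by field_simp; ring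
    rw [this]; field_simp
  rw [e1, e2, lint_v, ENNReal.mul_rpow_of_nonneg _ _ (by positivity),
    ENNReal.ofReal_rpow_of_nonneg hc (by positivity), ← mul_assoc,
    ← ENNReal.ofReal_mul (by positivity)] at h1
  have e3 : ∀ ξ, ‖Hd ψ A (fun _ => 1) g (vV n (1 / V)) ξ‖ₑ ^ (2 : ℝ) =
      ENNReal.ofReal ((1 / V) ^ 2) * ‖mu ψ A 1 ξ * gh g ξ‖ₑ ^ (2 : ℝ) := by
    intro ξ
    rw [Hd_v, Fm_v hc, show mu ψ A 1 ξ * (((1 / V : ℝ) : ℂ) * gh g ξ) =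
      ((1 / V : ℝ) : ℂ) * (mu ψ A 1 ξ * gh g ξ) by ring, enorm_mul _ (mu ψ A 1 ξ * gh g ξ),
      ENNReal.mul_rpow_of_nonneg _ _ (by norm_num), en_real hc,
      ENNReal.ofReal_rpow_of_nonneg hc (by norm_num)]
    congr 2
    exact_mod_cast Real.rpow_natCast _ 2
  simp only [e3] at h1
  have hmm : Measurable fun ξ : E n => ‖mu ψ A 1 ξ * gh g ξ‖ₑ ^ (2 : ℝ) :=
    ((mu_cont hψ A 1).mul (gh_cont (BB_int hg))).measurable.enorm.pow_const _
  rw [lintegral_const_mul _ hmm] at h1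
  have h2 : ∫⁻ ξ, ‖mu ψ A 1 ξ * gh g ξ‖ₑ ^ (2 : ℝ) = ENNReal.ofReal (V ^ 2) *
      (ENNReal.ofReal ((1 / V) ^ 2) * ∫⁻ ξ, ‖mu ψ A 1 ξ * gh g ξ‖ₑ ^ (2 : ℝ)) := by
    rw [← mul_assoc, ← ENNReal.ofReal_mul (by positivity)]
    have : V ^ 2 * (1 / V) ^ 2 = 1 := by field_simp
    rw [this, ENNReal.ofReal_one, one_mul]
  rw [h2]
  refine (mul_le_mul' le_rfl h1).trans (le_of_eq ?_)
  rw [← mul_assoc, ← ENNReal.ofReal_mul (by positivity)]
  congr 2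
  ring

/-- truncation -/
noncomputable def tr {n : ℕ} (f : E n → ℂ) (N : ℕ) : E n → ℂ := {x | ‖f x‖ ≤ N}.indicator f

theorem tr_meas {n : ℕ} {f : E n → ℂ} (hf : Measurable f) (N : ℕ) : Measurable (tr f N) :=
  hf.indicator (measurableSet_le hf.norm measurable_const)

theorem tr_le {n : ℕ} (f : E n → ℂ) (N : ℕ) (x : E n) : ‖tr f N x‖ ≤ ‖f x‖ := by
  unfold tr
  exact norm_indicator_le_norm_self _ _

theorem tr_bdd {n : ℕ} (f : E n → ℂ) (N : ℕ) (x : E n) : ‖tr f N x‖ ≤ N := by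
  unfold tr
  by_cases h : x ∈ {x | ‖f x‖ ≤ N}
  · rw [indicator_of_mem h]; exact h
  · rw [indicator_of_notMem h, norm_zero]; positivity

theorem tr_lim {n : ℕ} (f : E n → ℂ) (x : E n) : ∀ᶠ N : ℕ in atTop, tr f N x = f x := by
  obtain ⟨N0, hN0⟩ := exists_nat_ge ‖f x‖
  filter_upwards [eventually_ge_atTop N0] with N hN
  unfold tr
  rw [indicator_of_mem]
  exact hN0.trans (by exact_mod_cast hN)

theorem tr_gh {n : ℕ} {f : E n → ℂ} (hf : Measurable f) (hfi : Integrable f) (ξ : E n) :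
    Tendsto (fun N : ℕ => gh (tr f N) ξ) atTop (𝓝 (gh f ξ)) := by
  simp only [gh_eq]
  have hc : Continuous fun x : E n => cexp (((2 * Real.pi * ⟪x, ξ⟫ : ℝ) : ℂ) * I) := by fun_prop
  refine tendsto_integral_of_dominated_convergence (fun x => ‖f x‖) (fun N => ?_) hfi.norm
    (fun N => Eventually.of_forall fun x => ?_) (Eventually.of_forall fun x => ?_)
  · exact ((tr_meas hf N).mul hc.measurable).aestronglyMeasurable
  · rw [norm_mul, Complex.norm_exp_ofReal_mul_I, mul_one]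
    exact tr_le f N x
  · refine tendsto_const_nhds.congr' ?_
    filter_upwards [tr_lim f x] with N hN
    rw [hN]

theorem tr_BB {n : ℕ} {f : E n → ℂ} (hf : Measurable f) {u : E n} {r : ℝ}
    (hs : ∀ x, x ∉ closedBall u r → f x = 0) (N : ℕ) : BB (tr f N) := by
  refine ⟨tr_meas hf N, ⟨N, tr_bdd f N⟩, ‖u‖ + r, fun x hx => ?_⟩
  have h1 : x ∉ closedBall u r := by
    intro h
    apply hx
    rw [mem_closedBall_zero_iff]
    rw [mem_closedBall, dist_eq_norm] at h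
    have h2 : ‖x‖ ≤ ‖u‖ + ‖x - u‖ := by
      have := norm_add_le u (x - u)
      rwa [add_sub_cancel] at this
    linarith
  have h2 := tr_le f N x
  rw [hs x h1, norm_zero] at h2
  exact norm_le_zero_iff.1 h2

theorem st1b (n : ℕ) (h : S_GE n) {ψ : ℝ → ℝ} (hψ : Bump ψ) {p ε : ℝ} (hp1 : 1 < p) (hp2 : p < 2)
    (hε : 0 < ε) : ∃ C : ℝ, 0 < C ∧ ∀ A : ℝ, 4 ≤ A → ∀ (u : E n) (r : ℝ) (f : E n → ℂ),
      Measurable f → (∀ x, x ∉ closedBall u r → f x = 0) → Integrable f →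
      ∫⁻ ξ, ‖mu ψ A 1 ξ * gh f ξ‖ₑ ^ (2 : ℝ) ≤
        ENNReal.ofReal (C * A ^ (-th n 0 (p / (p - 1)) + ε)) * (∫⁻ x, ‖f x‖ₑ ^ p) ^ (2 / p) := by
  obtain ⟨C, hC, hE⟩ := st1 n h hψ hp1 hp2 hε
  refine ⟨C, hC, fun A hA u r f hf hs hfi => ?_⟩
  have hlim : ∀ ξ, Tendsto (fun N : ℕ => ‖mu ψ A 1 ξ * gh (tr f N) ξ‖ₑ ^ (2 : ℝ)) atTop
      (𝓝 (‖mu ψ A 1 ξ * gh f ξ‖ₑ ^ (2 : ℝ))) := by
    intro ξ
    have h1 := (tr_gh hf hfi ξ).const_mul (mu ψ A 1 ξ)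
    have h2 := (continuous_enorm.tendsto (mu ψ A 1 ξ * gh f ξ)).comp h1
    exact (ENNReal.continuous_rpow_const (y := 2)).continuousAt.tendsto.comp h2
  have e1 : ∀ ξ, ‖mu ψ A 1 ξ * gh f ξ‖ₑ ^ (2 : ℝ) =
      liminf (fun N : ℕ => ‖mu ψ A 1 ξ * gh (tr f N) ξ‖ₑ ^ (2 : ℝ)) atTop :=
    fun ξ => (hlim ξ).liminf_eq.symm
  simp only [e1]
  refine (lintegral_liminf_le fun N => (((mu_cont hψ A 1).mul
    (gh_cont (BB_int (tr_BB hf hs N)))).measurable.enorm.pow_const _)).trans ?_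
  refine (liminf_le_liminf (Eventually.of_forall fun N => ?_)).trans
    (le_of_eq (tendsto_const_nhds (f := (atTop : Filter ℕ))).liminf_eq)
  refine (hE A hA (tr f N) (tr_BB hf hs N)).trans ?_
  gcongr with x
  rw [← ofReal_norm, ← ofReal_norm]
  exact ENNReal.ofReal_le_ofReal (tr_le f N x)

theorem Fm_meas {n : ℕ} (ν : Measure (E n)) [IsFiniteMeasure ν] {g : E n → ℂ} (hg : Measurable g) :
    Measurable (Fm g ν) := by
  have h : Measurable fun z : E n × E n => g z.2 *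
      cexp (((2 * Real.pi * ⟪z.2, z.1⟫ : ℝ) : ℂ) * I) := by
    have h1 : Continuous fun z : E n × E n => cexp (((2 * Real.pi * ⟪z.2, z.1⟫ : ℝ) : ℂ) * I) := by
      fun_prop
    exact (hg.comp measurable_snd).mul h1.measurable
  exact (h.stronglyMeasurable.integral_prod_right' (ν := ν)).measurable

/-- the shell of thickness `1/ρ` -/
def shl (n : ℕ) (ρ : ℝ) : Set (E n) := {ξ : E n | |‖ξ‖ ^ 2 - 1| ≤ 1 / ρ}

theorem shl_meas (n : ℕ) (ρ : ℝ) : MeasurableSet (shl n ρ) := by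
  unfold shl
  exact measurableSet_le (by fun_prop) measurable_const

theorem mu_shl {n : ℕ} {ψ : ℝ → ℝ} (hψ : Bump ψ) {A : ℝ} (hA : 4 ≤ A) (ξ : E n)
    (h : mu ψ A 1 ξ ≠ 0) : -ξ ∈ shl n (A / 2) := by
  have hA0 : 0 < A := by linarith
  obtain ⟨h1, h2⟩ := mu_supp hψ hA0 one_pos ξ h
  have h3 : 0 < 1 / (2 * A) := by positivity
  have h4 : 0 < 2 / A := by positivity
  unfold shl
  rw [mem_ofPred_eq, norm_neg, abs_le, show 1 / (A / 2) = 2 / A by field_simp]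
  constructor <;> linarith

/-- the pairing, with the gain -/
theorem pair_gain {n : ℕ} {ψ : ℝ → ℝ} (hψ : Bump ψ) {A : ℝ} (hA : 4 ≤ A)
    (ν : Measure (E n)) [IsFiniteMeasure ν] {f g : E n → ℂ} (hf : Integrable f)
    (hg : Measurable g) {M : ℝ} (hgb : ∀ x, ‖g x‖ ≤ M) :
    ‖∫ x, Ff ψ A (fun _ => 1) f x * g x ∂ν‖ₑ ≤
      (∫⁻ ξ, ‖mu ψ A 1 ξ * gh f ξ‖ₑ ^ (2 : ℝ)) ^ (1 / 2 : ℝ) *
      (∫⁻ ξ in shl n (A / 2), ‖Fm g ν ξ‖ₑ ^ (2 : ℝ)) ^ (1 / 2 : ℝ) := by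
  have hA0 : 0 < A := by linarith
  have hR : Radii (n := n) (fun _ => 1) := ⟨measurable_const, fun _ => ⟨le_rfl, by norm_num⟩⟩
  rw [pair hψ hA0 hR ν hf hg hgb]
  refine (enorm_integral_le_lintegral_enorm _).trans ?_
  have hFm := Fm_meas ν hg
  have h1 := ENNReal.lintegral_mul_le_Lp_mul_Lq (volume : Measure (E n))
    (p := 2) (q := 2) (by constructor <;> norm_num)
    (f := fun ξ => ‖mu ψ A 1 ξ * gh f ξ‖ₑ)
    (g := fun ξ => (shl n (A / 2)).indicator (fun ξ => ‖Fm g ν ξ‖ₑ) (-ξ))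
    ((mu_cont hψ A 1).mul (gh_cont hf)).measurable.enorm.aemeasurable
    ((hFm.enorm.indicator (shl_meas n _)).comp measurable_neg).aemeasurable
  have h2 : ∫⁻ ξ, (shl n (A / 2)).indicator (fun ξ => ‖Fm g ν ξ‖ₑ) (-ξ) ^ (2 : ℝ) =
      ∫⁻ ξ in shl n (A / 2), ‖Fm g ν ξ‖ₑ ^ (2 : ℝ) := by
    rw [lintegral_neg_eq_self (fun ξ => (shl n (A / 2)).indicator (fun ξ => ‖Fm g ν ξ‖ₑ) ξ ^
      (2 : ℝ)), ← lintegral_indicator (shl_meas n _)]
    refine lintegral_congr fun ξ => ?_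
    by_cases hξ : ξ ∈ shl n (A / 2)
    · rw [indicator_of_mem hξ, indicator_of_mem hξ]
    · rw [indicator_of_notMem hξ, indicator_of_notMem hξ, ENNReal.zero_rpow_of_pos (by norm_num)]
  rw [h2] at h1
  refine le_trans (lintegral_mono fun ξ => ?_) h1
  change ‖gh f ξ * Hd ψ A (fun _ => 1) g ν (-ξ)‖ₑ ≤ ‖mu ψ A 1 ξ * gh f ξ‖ₑ *
    (shl n (A / 2)).indicator (fun ξ => ‖Fm g ν ξ‖ₑ) (-ξ)
  rw [Hd_v, mu_neg]
  by_cases hξ : mu ψ A 1 ξ = 0
  · rw [hξ]; simp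
  · rw [indicator_of_mem (mu_shl hψ hA ξ hξ), ← enorm_mul]
    apply le_of_eq
    congr 1; ring

theorem st2 {n : ℕ} {ψ : ℝ → ℝ} (hψ : Bump ψ) {γ K : ℝ} {μ : Measure (E n)} (hμ : Dim (n : ℝ) μ)
    (hG : Gain γ K μ) {A : ℝ} (hA : 4 ≤ A) {u : E n} {ρ : ℝ} (hρ : 1 ≤ ρ) {f : E n → ℂ}
    (hf : Integrable f) :
    ∫⁻ x in closedBall u ρ, ‖Ff ψ A (fun _ => 1) f x‖ₑ ^ (2 : ℝ) ∂μ ≤
      (∫⁻ ξ, ‖mu ψ A 1 ξ * gh f ξ‖ₑ ^ (2 : ℝ)) * ENNReal.ofReal (K * (A / 2) ^ (-γ)) := by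
  have hA0 : 0 < A := by linarith
  have hR : Radii (n := n) (fun _ => 1) := ⟨measurable_const, fun _ => ⟨le_rfl, by norm_num⟩⟩
  set B := closedBall u ρ with hB
  have hBm : MeasurableSet B := isClosed_closedBall.measurableSet
  have hBf : μ B < ∞ := (hμ u ρ hρ).trans_lt ENNReal.ofReal_lt_top
  have : IsFiniteMeasure (μ.restrict B) := ⟨by rw [Measure.restrict_apply_univ]; exact hBf⟩
  obtain ⟨M, hM, hMb⟩ := Ff_bdd hψ hA0 hR hf
  have hFm := Ff_meas hψ hA0 hR hf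
  set F := Ff ψ A (fun _ => 1) f with hF
  set g : E n → ℂ := B.indicator fun x => (starRingEnd ℂ) (F x) with hg
  have hgm : Measurable g := (Complex.continuous_conj.measurable.comp hFm).indicator hBm
  have hgn : ∀ x, ‖g x‖ = B.indicator (fun x => ‖F x‖) x := by
    intro x
    rw [hg]
    by_cases hx : x ∈ B
    · rw [indicator_of_mem hx, indicator_of_mem hx, RCLike.norm_conj]
    · rw [indicator_of_notMem hx, indicator_of_notMem hx, norm_zero]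
  have hgb : ∀ x, ‖g x‖ ≤ M := by
    intro x
    rw [hgn]
    by_cases hx : x ∈ B
    · rw [indicator_of_mem hx]; exact hMb x
    · rw [indicator_of_notMem hx]; exact hM
  have hg0 : ∀ x, x ∉ B → g x = 0 := fun x hx => indicator_of_notMem hx _
  have hBB : BB g := by
    refine ⟨hgm, ⟨M, hgb⟩, ‖u‖ + ρ, fun x hx => hg0 x fun h => hx ?_⟩
    rw [mem_closedBall_zero_iff]
    rw [hB, mem_closedBall, dist_eq_norm] at h
    have h2 : ‖x‖ ≤ ‖u‖ + ‖x - u‖ := by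
      have := norm_add_le u (x - u)
      rwa [add_sub_cancel] at this
    linarith
  have h1 := hG (A / 2) (by linarith) g hBB
  have h2 : Fm g (μ.restrict B) = Fm g μ := by
    funext ξ
    unfold Fm
    exact setIntegral_eq_integral_of_forall_compl_eq_zero fun x hx => by rw [hg0 x hx]; ring
  have h3 := pair_gain hψ hA (μ.restrict B) hf hgm hgb
  rw [h2] at h3
  set J : ℝ≥0∞ := ∫⁻ x in B, ‖F x‖ₑ ^ (2 : ℝ) ∂μ with hJ
  have hen : ∀ x, ENNReal.ofReal (‖F x‖ ^ 2) = ‖F x‖ₑ ^ (2 : ℝ) := by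
    intro x
    rw [← ofReal_norm, ENNReal.ofReal_rpow_of_nonneg (norm_nonneg _) (by norm_num)]
    congr 1
    exact_mod_cast (Real.rpow_natCast _ 2).symm
  have hFi : Integrable (fun x => ‖F x‖ ^ 2) (μ.restrict B) := by
    refine Integrable.of_bound (C := M ^ 2) (hFm.norm.pow_const _).aestronglyMeasurable
      (Eventually.of_forall fun x => ?_)
    rw [Real.norm_of_nonneg (by positivity)]
    exact pow_le_pow_left₀ (norm_nonneg _) (hMb x) 2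
  have hJe : ENNReal.ofReal (∫ x in B, ‖F x‖ ^ 2 ∂μ) = J := by
    rw [ofReal_integral_eq_lintegral_ofReal hFi (Eventually.of_forall fun x => by positivity)]
    exact lintegral_congr fun x => hen x
  have hJf : J ≠ ∞ := by rw [← hJe]; exact ENNReal.ofReal_ne_top
  have h4 : ‖∫ x, F x * g x ∂(μ.restrict B)‖ₑ = J := by
    have e1 : ∫ x, F x * g x ∂(μ.restrict B) = ((∫ x in B, ‖F x‖ ^ 2 ∂μ : ℝ) : ℂ) := by
      rw [← integral_complex_ofReal]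
      refine setIntegral_congr_fun hBm fun x hx => ?_
      simp only [hg]
      rw [indicator_of_mem hx, Complex.mul_conj, Complex.normSq_eq_norm_sq]
    rw [e1, ← hJe, ← ofReal_norm, Complex.norm_real, Real.norm_of_nonneg
      (integral_nonneg fun x => by positivity)]
  have h5 : ∫⁻ x, ‖g x‖ₑ ^ (2 : ℝ) ∂μ = J := by
    rw [hJ, ← lintegral_indicator hBm]
    refine lintegral_congr fun x => ?_
    rw [← ofReal_norm, hgn]
    by_cases hx : x ∈ B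
    · rw [indicator_of_mem hx, indicator_of_mem hx, ofReal_norm]
    · rw [indicator_of_notMem hx, indicator_of_notMem hx, ENNReal.ofReal_zero,
        ENNReal.zero_rpow_of_pos (by norm_num)]
  rw [h4] at h3
  rw [h5] at h1
  set N : ℝ≥0∞ := ∫⁻ ξ, ‖mu ψ A 1 ξ * gh f ξ‖ₑ ^ (2 : ℝ) with hN
  set c : ℝ≥0∞ := ENNReal.ofReal (K * (A / 2) ^ (-γ)) with hc
  have h6 : J ≤ (N ^ (1 / 2 : ℝ) * c ^ (1 / 2 : ℝ)) * J ^ (((2 : ℝ) - 1) / 2) := by
    refine h3.trans ?_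
    rw [mul_assoc]
    gcongr
    refine (ENNReal.rpow_le_rpow h1 (by norm_num)).trans (le_of_eq ?_)
    rw [ENNReal.mul_rpow_of_nonneg _ _ (by norm_num)]
    norm_num
  refine (absorb hJf (by norm_num) h6).trans (le_of_eq ?_)
  rw [ENNReal.mul_rpow_of_nonneg _ _ (by norm_num), ← ENNReal.rpow_mul, ← ENNReal.rpow_mul]
  norm_num

theorem gs_cst {C K A ρ a b γ p : ℝ} (hC : 0 < C) (hK : 0 < K) (hA : 0 < A) (hρ : 0 < ρ)
    (_hp : 0 < p) (n : ℕ) :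
    (ρ ^ (n : ℝ)) ^ (1 - p / 2) * ((C * A ^ (-a + b)) * (K * (A / 2) ^ (-γ))) ^ (p / 2) =
      (C * K * 2 ^ γ) ^ (p / 2) * A ^ ((-γ - a + b) * (p / 2)) * ρ ^ (n * (1 - p / 2)) := by
  have e1 : (C * A ^ (-a + b)) * (K * (A / 2) ^ (-γ)) = (C * K * 2 ^ γ) * A ^ (-γ - a + b) := by
    rw [Real.div_rpow hA.le (by norm_num), Real.rpow_neg (show (0 : ℝ) ≤ 2 by norm_num),
      show -γ - a + b = (-a + b) + -γ by ring, Real.rpow_add hA (-a + b)]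
    field_simp
  rw [e1, Real.mul_rpow (by positivity) (by positivity), Real.rpow_mul hρ.le, Real.rpow_mul hA.le]
  ring

theorem t_gs (n : ℕ) (_hn : 2 ≤ n) : S_GE n → S_GS n := by
  intro h ψ hψ γ K p ε hγ0 hγ1 hK hp1 hp2 hε
  obtain ⟨C, hC, hE⟩ := st1b n h hψ hp1 hp2 hε
  have hK1 : 0 < K + 1 := by linarith
  have hp0 : 0 < p := by linarith
  refine ⟨(C * (K + 1) * 2 ^ γ) ^ (p / 2), by positivity,
    fun μ hμ hG A hA u ρ hρ f hf hs hfp => ?_⟩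
  have hA0 : 0 < A := by linarith
  have hρ0 : 0 < ρ := by linarith
  have hfi := int_of_loc hf hs p hp1.le hfp
  have hN := hE A hA u (2 * ρ) f hf hs hfi
  have h2 := st2 hψ hμ hG hA (u := u) hρ hfi
  have hR : Radii (n := n) (fun _ => 1) := ⟨measurable_const, fun _ => ⟨le_rfl, by norm_num⟩⟩
  have hFm := Ff_meas hψ hA0 hR hfi
  change ∫⁻ x in closedBall u ρ, ‖Ff ψ A (fun _ => 1) f x‖ₑ ^ p ∂μ ≤ _
  set F := Ff ψ A (fun _ => 1) f with hF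
  have h1 := ENNReal.lintegral_mul_norm_pow_le (μ := μ.restrict (closedBall u ρ))
    (f := fun _ => (1 : ℝ≥0∞)) (g := fun x => ‖F x‖ₑ ^ (2 : ℝ))
    aemeasurable_const (hFm.enorm.pow_const _).aemeasurable
    (p := 1 - p / 2) (q := p / 2) (by linarith) (by positivity) (by ring)
  have e1 : ∀ x, (1 : ℝ≥0∞) ^ (1 - p / 2) * (‖F x‖ₑ ^ (2 : ℝ)) ^ (p / 2) = ‖F x‖ₑ ^ p := by
    intro x
    rw [ENNReal.one_rpow, one_mul, ← ENNReal.rpow_mul]
    congr 1; ring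
  simp only [e1] at h1
  rw [lintegral_one, Measure.restrict_apply_univ] at h1
  refine h1.trans ?_
  have h3 : ∫⁻ x in closedBall u ρ, ‖F x‖ₑ ^ (2 : ℝ) ∂μ ≤
      ENNReal.ofReal ((C * A ^ (-th n 0 (p / (p - 1)) + ε)) * ((K + 1) * (A / 2) ^ (-γ))) *
        (∫⁻ x, ‖f x‖ₑ ^ p) ^ (2 / p) := by
    refine h2.trans ((mul_le_mul' hN (ENNReal.ofReal_le_ofReal
      (q := (K + 1) * (A / 2) ^ (-γ)) ?_)).trans (le_of_eq ?_))
    · gcongr; linarith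
    · rw [ENNReal.ofReal_mul (p := C * A ^ (-th n 0 (p / (p - 1)) + ε)) (by positivity)]
      ring
  calc μ (closedBall u ρ) ^ (1 - p / 2) * (∫⁻ x in closedBall u ρ, ‖F x‖ₑ ^ (2 : ℝ) ∂μ) ^ (p / 2)
      ≤ ENNReal.ofReal (ρ ^ (n : ℝ)) ^ (1 - p / 2) *
        (ENNReal.ofReal ((C * A ^ (-th n 0 (p / (p - 1)) + ε)) * ((K + 1) * (A / 2) ^ (-γ))) *
        (∫⁻ x, ‖f x‖ₑ ^ p) ^ (2 / p)) ^ (p / 2) := by
        refine mul_le_mul' (ENNReal.rpow_le_rpow (hμ u ρ hρ) (by linarith))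
          (ENNReal.rpow_le_rpow h3 (by positivity))
    _ = _ := by
        rw [ENNReal.mul_rpow_of_nonneg _ _ (by positivity), ← ENNReal.rpow_mul,
          show 2 / p * (p / 2) = 1 by field_simp, ENNReal.rpow_one,
          ENNReal.ofReal_rpow_of_nonneg (by positivity) (by linarith),
          ENNReal.ofReal_rpow_of_nonneg (by positivity) (by positivity), ← mul_assoc,
          ← ENNReal.ofReal_mul (by positivity), gs_cst hC hK1 hA0 hρ0 hp0 n]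

end Pool.Agent.Y737.FC
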